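import Pool.Agent.L5helper31.TG.Defs

/-!
# TG6: the alternative for unimodular vector configurations
-/

set_option autoImplicit false

open MeasureTheory Finset

namespace Pool.Agent.L5helper31.TG

/-- TG6. If the subset is the whole basis, then `L` is the set of the `n + 1` vectors or there is
another basis with a proper subset. -/
theorem alternative {n : ℕ} (hn : 2 ≤ n) (L : Finset (Fin n → ℤ))
    (hu : ∀ M : Fin n → (Fin n → ℤ), (∀ i, M i ∈ L) → |(Matrix.of M).det| ≤ 1)
    (h0 : (0 : Fin n → ℤ) ∉ L)
    (M : Fin n → (Fin n → ℤ)) (hM : ∀ i, M i ∈ L) (hd : (Matrix.of M).det ≠ 0)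
    (hs : -∑ i, M i ∈ L) (hne : L ≠ insert (-∑ i, M i) (univ.image M)) :
    ∃ M' : Fin n → (Fin n → ℤ), (∀ i, M' i ∈ L) ∧ (Matrix.of M').det ≠ 0 ∧
      ∃ J : Finset (Fin n), J.Nonempty ∧ J ≠ univ ∧ -∑ i ∈ J, M' i ∈ L := by
  classical
  set A : Matrix (Fin n) (Fin n) ℤ := Matrix.of M with hA
  have hsub : insert (-∑ i, M i) (univ.image M) ⊆ L := by
    intro x hx
    rcases Finset.mem_insert.1 hx with h | h
    · rw [h]; exact hs
    · obtain ⟨i, -, rfl⟩ := Finset.mem_image.1 h
      exact hM i
  obtain ⟨l, hlL, hl⟩ : ∃ l ∈ L, l ∉ insert (-∑ i, M i) (univ.image M) := by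
    by_contra hcon
    push Not at hcon
    exact hne (Finset.Subset.antisymm (fun x hx => hcon x hx) hsub)
  have hl1 : l ≠ -∑ i, M i := fun h => hl (Finset.mem_insert.2 (Or.inl h))
  have hl2 : ∀ i, l ≠ M i := fun i h =>
    hl (Finset.mem_insert.2 (Or.inr (Finset.mem_image.2 ⟨i, Finset.mem_univ _, h.symm⟩)))
  have hl0 : l ≠ 0 := fun h => h0 (h ▸ hlL)
  have hdA : |A.det| = 1 := by
    have h1 := hu M hM
    have h2 : 0 < |A.det| := abs_pos.2 hd
    have h3 : |A.det| ≤ 1 := h1
    omega
  have hunit : IsUnit A.det := by
    rw [Int.isUnit_iff]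
    rcases abs_cases A.det with h | h <;> omega
  obtain ⟨a, ha⟩ : ∃ a : Fin n → ℤ, l = ∑ i, a i • M i := by
    refine ⟨Matrix.vecMul l A⁻¹, ?_⟩
    have h1 : Matrix.vecMul (Matrix.vecMul l A⁻¹) A = l := by
      rw [Matrix.vecMul_vecMul, Matrix.nonsing_inv_mul A hunit, Matrix.vecMul_one]
    rw [Matrix.vecMul_eq_sum] at h1
    exact h1.symm
  have hrow : ∀ i, A i = M i := fun i => rfl
  -- replacing one row
  have hdet1 : ∀ i, (A.updateRow i l).det = a i * A.det := by
    intro i
    have h1 := Matrix.det_updateRow_sum A i a
    rw [← smul_eq_mul, ← h1]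
    congr 2
  have hof : ∀ (N : Fin n → (Fin n → ℤ)) (i : Fin n) (v : Fin n → ℤ),
      Matrix.of (Function.update N i v) = (Matrix.of N).updateRow i v := by
    intro N i v
    rfl
  have ha1 : ∀ i, |a i| ≤ 1 := by
    intro i
    have h1 := hu (Function.update M i l) (by
      intro j
      by_cases hj : j = i
      · subst hj; simpa using hlL
      · rw [Function.update_of_ne hj]; exact hM j)
    rw [hof, ← hA, hdet1, abs_mul, hdA, mul_one] at h1
    exact h1
  -- replacing two rows
  have ha2 : ∀ r s, r ≠ s → |a s - a r| ≤ 1 := by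
    intro r s hrs
    have h1 := hu (Function.update (Function.update M r l) s (-∑ i, M i)) (by
      intro j
      by_cases hj : j = s
      · subst hj; simpa using hs
      · rw [Function.update_of_ne hj]
        by_cases hj' : j = r
        · subst hj'; simpa using hlL
        · rw [Function.update_of_ne hj']; exact hM j)
    rw [hof, hof, ← hA] at h1
    have h2 : ((A.updateRow r l).updateRow s (-∑ i, M i)).det = (a s - a r) * A.det := by
      set B := A.updateRow r l with hB
      have h3 : (-∑ i, M i) = (∑ k, (if k = r then (0:ℤ) else -1) • B k) + (-1 : ℤ) • A r := by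
        have h4 : ∀ k, (if k = r then (0:ℤ) else -1) • B k =
            -(M k) + (if k = r then M r else 0) := by
          intro k
          by_cases hk : k = r
          · subst hk; simp
          · simp [hk, hB, hrow]
        rw [Finset.sum_congr rfl (fun k _ => h4 k), Finset.sum_add_distrib,
          Finset.sum_neg_distrib]
        simp [hrow]
      rw [h3, Matrix.det_updateRow_add, Matrix.det_updateRow_sum, Matrix.det_updateRow_smul]
      have h5 : (B.updateRow s (A r)).det = -(a s * A.det) := by
        have h6 : B.updateRow s (A r) = (A.updateRow s l).submatrix (Equiv.swap r s) id := by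
          ext i j
          rw [Matrix.submatrix_apply, id]
          by_cases his : i = s
          · subst his
            rw [Matrix.updateRow_self, Equiv.swap_apply_right, Matrix.updateRow_ne hrs]
          · rw [Matrix.updateRow_ne his, hB]
            by_cases hir : i = r
            · subst hir
              rw [Matrix.updateRow_self, Equiv.swap_apply_left, Matrix.updateRow_self]
            · rw [Matrix.updateRow_ne hir, Equiv.swap_apply_of_ne_of_ne hir his,
                Matrix.updateRow_ne his]
        rw [h6, Matrix.det_permute, Equiv.Perm.sign_swap hrs, hdet1]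
        simp
      rw [h5, hB, hdet1, if_neg (Ne.symm hrs)]
      simp only [smul_eq_mul]
      ring
    rw [h2, abs_mul, hdA, mul_one] at h1
    exact h1
  by_cases hpos : ∃ i0, a i0 = 1
  · obtain ⟨i0, hi0⟩ := hpos
    have hall : ∀ i, a i = 0 ∨ a i = 1 := by
      intro i
      by_cases hi : i = i0
      · subst hi; exact Or.inr hi0
      · have h1 := abs_le.1 (ha1 i)
        have h2 := abs_le.1 (ha2 i0 i (Ne.symm hi))
        omega
    have hlI : l = ∑ i ∈ univ.filter (fun i => a i = 1), M i := by
      rw [ha, Finset.sum_filter]
      refine Finset.sum_congr rfl fun i _ => ?_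
      rcases hall i with h | h <;> simp [h]
    refine ⟨Function.update M i0 l, ?_, ?_, insert i0 (univ.filter (fun i => a i ≠ 1)), ?_, ?_, ?_⟩
    · intro j
      by_cases hj : j = i0
      · subst hj; simpa using hlL
      · rw [Function.update_of_ne hj]; exact hM j
    · rw [hof, ← hA, hdet1, hi0, one_mul]
      exact hd
    · exact Finset.insert_nonempty _ _
    · intro hJ
      apply hl2 i0
      rw [hlI]
      have h1 : univ.filter (fun i => a i = 1) = {i0} := by
        ext i
        simp only [Finset.mem_filter, Finset.mem_univ, true_and, Finset.mem_singleton]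
        constructor
        · intro hi
          have h2 : i ∈ insert i0 (univ.filter (fun i => a i ≠ 1)) := by
            rw [hJ]; exact Finset.mem_univ _
          rcases Finset.mem_insert.1 h2 with h | h
          · exact h
          · exact absurd hi (Finset.mem_filter.1 h).2
        · rintro rfl; exact hi0
      rw [h1, Finset.sum_singleton]
    · have h1 : i0 ∉ univ.filter (fun i => a i ≠ 1) := by simp [hi0]
      rw [Finset.sum_insert h1, Function.update_self]
      have h2 : ∑ x ∈ univ.filter (fun i => a i ≠ 1), Function.update M i0 l x =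
          ∑ x ∈ univ.filter (fun i => a i ≠ 1), M x := by
        refine Finset.sum_congr rfl fun x hx => ?_
        rw [Function.update_of_ne]
        rintro rfl
        exact h1 hx
      rw [h2, hlI]
      have h3 : ∑ i ∈ univ.filter (fun i => a i = 1), M i +
          ∑ x ∈ univ.filter (fun i => a i ≠ 1), M x = ∑ i, M i :=
        Finset.sum_filter_add_sum_filter_not univ (fun i => a i = 1) M
      rw [h3]
      exact hs
  · push Not at hpos
    have hall : ∀ i, a i = 0 ∨ a i = -1 := by
      intro i
      have h1 := abs_le.1 (ha1 i)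
      have h2 := hpos i
      omega
    have hlI : l = -∑ i ∈ univ.filter (fun i => a i = -1), M i := by
      rw [ha, Finset.sum_filter, ← Finset.sum_neg_distrib]
      refine Finset.sum_congr rfl fun i _ => ?_
      rcases hall i with h | h <;> simp [h]
    refine ⟨M, hM, hd, univ.filter (fun i => a i = -1), ?_, ?_, ?_⟩
    · rw [Finset.nonempty_iff_ne_empty]
      intro hJ
      apply hl0
      rw [hlI, hJ]
      simp
    · intro hJ
      apply hl1
      rw [hlI, hJ]
    · rw [← hlI]
      exact hlL

end Pool.Agent.L5helper31.TG
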