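import Pool.Agent.L5helper69.SV.Defs3

/-!
# EXP: solutions of linear recurrences are exponential polynomials
-/

set_option autoImplicit false

namespace Pool.Agent.L5helper82.SVExp

open Pool.Agent.L5helper69.SV3 Polynomial

/-- the shift -/
noncomputable def sh : (ℕ → ℂ) →ₗ[ℂ] (ℕ → ℂ) := LinearMap.funLeft ℂ ℂ Nat.succ

theorem sh_apply (a : ℕ → ℂ) (n : ℕ) : sh a n = a (n + 1) := rfl

theorem sh_pow (i : ℕ) (a : ℕ → ℂ) (n : ℕ) : (sh ^ i) a n = a (n + i) := by
  induction i generalizing a n with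
  | zero => simp
  | succ i ih =>
    rw [pow_succ, Module.End.mul_apply, ih, sh_apply]
    congr 1

theorem aeval_sh (Q : ℂ[X]) (a : ℕ → ℂ) (n : ℕ) :
    (aeval sh Q) a n = ∑ i ∈ Finset.range (Q.natDegree + 1), Q.coeff i * a (n + i) := by
  rw [aeval_eq_sum_range]
  simp [LinearMap.sum_apply, Finset.sum_apply, sh_pow]

/-- the span of the exponential monomials -/
noncomputable def W (M : Submonoid ℂ) : Submodule ℂ (ℕ → ℂ) :=
  Submodule.span ℂ {a | ∃ (k : ℕ) (y : ℂ), y ∈ M ∧ a = fun n : ℕ => (n : ℂ) ^ k * y ^ n}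

/-- the difference operator -/
noncomputable def D (z : ℂ) : (ℕ → ℂ) →ₗ[ℂ] (ℕ → ℂ) := sh - z • LinearMap.id

theorem D_apply (z : ℂ) (a : ℕ → ℂ) (n : ℕ) : D z a n = a (n + 1) - z * a n := by
  simp [D, sh_apply]

theorem mem_W {M : Submonoid ℂ} (k : ℕ) {y : ℂ} (hy : y ∈ M) :
    (fun n : ℕ => (n : ℂ) ^ k * y ^ n) ∈ W M :=
  Submodule.subset_span ⟨k, y, hy, rfl⟩

theorem key {M : Submonoid ℂ} (hM : ∀ y ∈ M, y ≠ 0) {z : ℂ} {y : ℂ} (hy : y ∈ M) (k : ℕ) :
    (fun n : ℕ => (n : ℂ) ^ k * y ^ n) ∈ (W M).map (D z) := by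
  induction k using Nat.strong_induction_on with
  | _ k ih =>
  have hy0 := hM y hy
  by_cases hyz : y = z
  · subst hyz
    have hk : (k : ℂ) + 1 ≠ 0 := by exact_mod_cast Nat.succ_ne_zero k
    have h1 : (fun n : ℕ => (n : ℂ) ^ k * y ^ n) =
        (1 / (((k : ℂ) + 1) * y)) • D y (fun n : ℕ => (n : ℂ) ^ (k + 1) * y ^ n) -
        ∑ j ∈ Finset.range k, (((k + 1).choose j : ℂ) / ((k : ℂ) + 1)) •
          (fun n : ℕ => (n : ℂ) ^ j * y ^ n) := by
      funext n
      simp only [Pi.sub_apply, Pi.smul_apply, smul_eq_mul, Finset.sum_apply]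
      rw [D_apply]
      have h2 : ((n + 1 : ℕ) : ℂ) ^ (k + 1) = (∑ j ∈ Finset.range k, (n : ℂ) ^ j *
          ((k + 1).choose j : ℂ)) + (n : ℂ) ^ k * ((k : ℂ) + 1) + (n : ℂ) ^ (k + 1) := by
        push_cast
        rw [add_pow, Finset.sum_range_succ, Finset.sum_range_succ]
        simp
      rw [h2]
      have h3 : ∑ j ∈ Finset.range k, ((k + 1).choose j : ℂ) / ((k : ℂ) + 1) *
          ((n : ℂ) ^ j * y ^ n) = (∑ j ∈ Finset.range k, (n : ℂ) ^ j *
          ((k + 1).choose j : ℂ)) * (y ^ n / ((k : ℂ) + 1)) := by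
        rw [Finset.sum_mul]
        refine Finset.sum_congr rfl fun j _ => ?_
        ring
      rw [h3, pow_succ y n]
      field_simp
      ring
    rw [h1]
    refine Submodule.sub_mem _ (Submodule.smul_mem _ _ (Submodule.mem_map_of_mem (mem_W _ hy)))
      (Submodule.sum_mem _ fun j hj => Submodule.smul_mem _ _ (ih j (Finset.mem_range.1 hj)))
  · have hyz' : y - z ≠ 0 := sub_ne_zero.2 hyz
    have h1 : (fun n : ℕ => (n : ℂ) ^ k * y ^ n) =
        (1 / (y - z)) • D z (fun n : ℕ => (n : ℂ) ^ k * y ^ n) -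
        ∑ j ∈ Finset.range k, ((k.choose j : ℂ) * y / (y - z)) •
          (fun n : ℕ => (n : ℂ) ^ j * y ^ n) := by
      funext n
      simp only [Pi.sub_apply, Pi.smul_apply, smul_eq_mul, Finset.sum_apply]
      rw [D_apply]
      have h2 : ((n + 1 : ℕ) : ℂ) ^ k = (∑ j ∈ Finset.range k, (n : ℂ) ^ j *
          (k.choose j : ℂ)) + (n : ℂ) ^ k := by
        push_cast
        rw [add_pow, Finset.sum_range_succ]
        simp
      rw [h2]
      have h3 : ∑ j ∈ Finset.range k, (k.choose j : ℂ) * y / (y - z) *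
          ((n : ℂ) ^ j * y ^ n) = (∑ j ∈ Finset.range k, (n : ℂ) ^ j *
          (k.choose j : ℂ)) * (y ^ n * y / (y - z)) := by
        rw [Finset.sum_mul]
        refine Finset.sum_congr rfl fun j _ => ?_
        ring
      rw [h3, pow_succ y n]
      field_simp
      ring
    rw [h1]
    refine Submodule.sub_mem _ (Submodule.smul_mem _ _ (Submodule.mem_map_of_mem (mem_W _ hy)))
      (Submodule.sum_mem _ fun j hj => Submodule.smul_mem _ _ (ih j (Finset.mem_range.1 hj)))

theorem W_le_map {M : Submonoid ℂ} (hM : ∀ y ∈ M, y ≠ 0) (z : ℂ) : W M ≤ (W M).map (D z) := by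
  refine Submodule.span_le.2 ?_
  rintro a ⟨k, y, hy, rfl⟩
  exact key hM hy k

theorem main {M : Submonoid ℂ} (hM : ∀ y ∈ M, y ≠ 0) (s : Multiset ℂ) :
    (∀ z ∈ s, z ∈ M) → ∀ a : ℕ → ℂ,
      (aeval sh ((s.map (fun z => X - C z)).prod)) a = 0 → a ∈ W M := by
  induction s using Multiset.induction_on with
  | empty =>
    intro _ a ha
    simp only [Multiset.map_zero, Multiset.prod_zero, map_one, Module.End.one_apply] at ha
    rw [ha]
    exact Submodule.zero_mem _
  | cons z s ih =>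
    intro hs a ha
    rw [Multiset.map_cons, Multiset.prod_cons, mul_comm, map_mul, Module.End.mul_apply] at ha
    have h1 : (aeval sh (X - C z)) a = D z a := by
      funext n
      simp [D, sh_apply]
    rw [h1] at ha
    have h2 := ih (fun w hw => hs w (Multiset.mem_cons_of_mem hw)) _ ha
    obtain ⟨c, hc, hca⟩ := W_le_map hM z h2
    have h3 : ∀ n, (a - c) (n + 1) = z * (a - c) n := by
      intro n
      have h4 := congrFun hca n
      rw [D_apply, D_apply] at h4
      simp only [Pi.sub_apply]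
      linear_combination -h4
    have h4 : ∀ n, (a - c) n = (a - c) 0 * z ^ n := by
      intro n
      induction n with
      | zero => simp
      | succ n ihn => rw [h3, ihn, pow_succ]; ring
    have h5 : a - c ∈ W M := by
      have h6 : a - c = ((a - c) 0) • (fun n : ℕ => (n : ℂ) ^ 0 * z ^ n) := by
        funext n
        rw [h4 n]
        simp
      rw [h6]
      exact Submodule.smul_mem _ _ (mem_W 0 (hs z (Multiset.mem_cons_self z s)))
    have h6 := Submodule.add_mem _ h5 hc
    rwa [sub_add_cancel] at h6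

theorem exp : St_Exp := by
  intro P hP hP0 Q hQ hPQ a ha
  set M : Submonoid ℂ := Submonoid.closure {x : ℂ | x ∈ P.roots} with hMdef
  have hM : ∀ y ∈ M, y ≠ 0 := by
    intro y hy
    induction hy using Submonoid.closure_induction with
    | mem x hx =>
      rintro rfl
      have h1 : P.IsRoot 0 := (mem_roots hP.ne_zero).1 hx
      rw [IsRoot.def, ← coeff_zero_eq_eval_zero] at h1
      exact hP0 h1
    | one => exact one_ne_zero
    | mul x y _ _ hx hy => exact mul_ne_zero hx hy
  have hQs : (Q.roots.map (fun z => X - C z)).prod = Q := by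
    have h1 := (IsAlgClosed.splits Q).eq_prod_roots
    rw [hQ.leadingCoeff, C_1, one_mul] at h1
    exact h1.symm
  have h1 : a ∈ W M := by
    refine main hM Q.roots (fun z hz => hPQ z hz) a ?_
    rw [hQs]
    funext n
    rw [aeval_sh]
    exact ha n
  have hpow : ∀ y ∈ M, (fun n : ℕ => y ^ n) ∈ Rng P := by
    intro y hy
    induction hy using Submonoid.closure_induction with
    | mem x hx => exact Algebra.subset_adjoin (Or.inr ⟨x, hx, rfl⟩)
    | one =>
      have : (fun n : ℕ => (1 : ℂ) ^ n) = 1 := by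
        funext n; simp
      rw [this]
      exact one_mem _
    | mul x y _ _ hx hy =>
      have : (fun n : ℕ => (x * y) ^ n) = (fun n : ℕ => x ^ n) * (fun n : ℕ => y ^ n) := by
        funext n; simp [mul_pow]
      rw [this]
      exact mul_mem hx hy
  have h2 : W M ≤ Subalgebra.toSubmodule (Rng P) := by
    refine Submodule.span_le.2 ?_
    rintro b ⟨k, y, hy, rfl⟩
    have h3 : (fun n : ℕ => (n : ℂ) ^ k * y ^ n) =
        (fun n : ℕ => (n : ℂ)) ^ k * (fun n : ℕ => y ^ n) := by
      funext n; simp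
    have h4 : (fun n : ℕ => (n : ℂ)) ∈ Rng P := Algebra.subset_adjoin (Or.inl rfl)
    show (fun n : ℕ => (n : ℂ) ^ k * y ^ n) ∈ Rng P
    rw [h3]
    exact mul_mem (pow_mem h4 k) (hpow y hy)
  exact h2 h1

end Pool.Agent.L5helper82.SVExp
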