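import Pool.Agent.Y53.FP.Final

/-!
Every Lipschitz free `p`-space is isometric to a contractively complemented subspace of the
Lipschitz free `p`-space over a (non complete) metric space all of whose points are isolated.
-/

set_option autoImplicit false

open Set Filter Topology
open Pool.Agent.H548R3.PFree Pool.Agent.Y53.FP

namespace Pool.Agent.L5helper82.DiscAP

/-- maximal separated nets -/
lemma exists_net (N : Type) [MetricSpace N] (ε : ℝ) (hε : 0 < ε) :
    ∃ S : Set N, (∀ x ∈ S, ∀ y ∈ S, dist x y < ε → x = y) ∧ ∀ x, ∃ y ∈ S, dist x y < ε := by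
  obtain ⟨S, hS⟩ := zorn_subset {S : Set N | ∀ x ∈ S, ∀ y ∈ S, dist x y < ε → x = y} (by
    intro c hc hchain
    refine ⟨⋃₀ c, ?_, fun s hs => subset_sUnion_of_mem hs⟩
    rintro x ⟨s, hs, hx⟩ y ⟨t, ht, hy⟩ hxy
    rcases hchain.total hs ht with h | h
    · exact hc ht x (h hx) y hy hxy
    · exact hc hs x hx y (h hy) hxy)
  refine ⟨S, hS.prop, fun x => ?_⟩
  by_contra hcon
  push Not at hcon
  have hxS : x ∉ S := fun hx => by
    have := hcon x hx
    rw [dist_self] at this
    exact absurd this (not_le.2 hε)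
  have h1 : insert x S ∈ {S : Set N | ∀ x ∈ S, ∀ y ∈ S, dist x y < ε → x = y} := by
    rintro a (rfl | ha) b (rfl | hb) hab
    · rfl
    · exact absurd hab (not_lt.2 (hcon b hb))
    · rw [dist_comm] at hab
      exact absurd hab (not_lt.2 (hcon a ha))
    · exact hS.prop a ha b hb hab
  exact hxS (hS.le_of_ge h1 (subset_insert x S) (mem_insert x S))

/-- the net of level `n` -/
noncomputable def net (N : Type) [MetricSpace N] (n : ℕ) : Set N :=
  (exists_net N (1 / ((n : ℝ) + 1)) (by positivity)).choose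

lemma net_sep {N : Type} [MetricSpace N] (n : ℕ) : ∀ x ∈ net N n, ∀ y ∈ net N n,
    dist x y < 1 / ((n : ℝ) + 1) → x = y :=
  (exists_net N (1 / ((n : ℝ) + 1)) (by positivity)).choose_spec.1

lemma net_dense {N : Type} [MetricSpace N] (n : ℕ) : ∀ x, ∃ y ∈ net N n,
    dist x y < 1 / ((n : ℝ) + 1) :=
  (exists_net N (1 / ((n : ℝ) + 1)) (by positivity)).choose_spec.2

/-- the discrete metric space attached to `N` -/
abbrev Disc (N : Type) [MetricSpace N] : Type :=
  {q : N × ℝ // ∃ n : ℕ, q.2 = 1 / ((n : ℝ) + 1) ∧ q.1 ∈ net N n}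

lemma dist_disc {N : Type} [MetricSpace N] (a b : Disc N) :
    dist a b = max (dist a.1.1 b.1.1) (dist a.1.2 b.1.2) := rfl

/-- every point of `Disc N` is isolated -/
lemma disc_isolated {N : Type} [MetricSpace N] (a : Disc N) :
    ∃ r : ℝ, 0 < r ∧ ∀ b : Disc N, dist b a < r → b = a := by
  obtain ⟨⟨x, t⟩, n, ht, hx⟩ := a
  simp only at ht hx
  subst ht
  refine ⟨1 / (((n : ℝ) + 1) * ((n : ℝ) + 2)), by positivity, ?_⟩
  rintro ⟨⟨y, s⟩, m, hs, hy⟩ h
  simp only at hs hy
  subst hs
  rw [dist_disc] at h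
  simp only at h
  have h1 := lt_of_le_of_lt (le_max_left _ _) h
  have h2 := lt_of_le_of_lt (le_max_right _ _) h
  have hmn : m = n := by
    by_contra hne
    rw [Real.dist_eq] at h2
    have hm0 : (0 : ℝ) < (m : ℝ) + 1 := by positivity
    have hn0 : (0 : ℝ) < (n : ℝ) + 1 := by positivity
    rcases Nat.lt_or_gt_of_ne hne with hlt | hgt
    · have h3 : (m : ℝ) + 1 ≤ n := by exact_mod_cast hlt
      have h4 : (1 : ℝ) / ((n : ℝ) + 1) + 1 / (((n : ℝ) + 1) * ((n : ℝ) + 2)) ≤ 1 / ((m : ℝ) + 1) := by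
        have h5 : (1 : ℝ) / (n : ℝ) ≤ 1 / ((m : ℝ) + 1) := one_div_le_one_div_of_le hm0 h3
        have hn1 : (0 : ℝ) < n := lt_of_lt_of_le hm0 h3
        refine le_trans ?_ h5
        rw [div_add_div _ _ hn0.ne' (by positivity), div_le_div_iff₀ (by positivity) hn1]
        nlinarith
      have h6 := le_abs_self ((1 : ℝ) / ((m : ℝ) + 1) - 1 / ((n : ℝ) + 1))
      linarith
    · have h3 : (n : ℝ) + 2 ≤ (m : ℝ) + 1 := by
        have : (n : ℝ) + 1 ≤ m := by exact_mod_cast hgt
        linarith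
      have h5 : (1 : ℝ) / ((m : ℝ) + 1) ≤ 1 / ((n : ℝ) + 2) :=
        one_div_le_one_div_of_le (by positivity) h3
      have h4 : (1 : ℝ) / ((n : ℝ) + 2) + 1 / (((n : ℝ) + 1) * ((n : ℝ) + 2)) =
          1 / ((n : ℝ) + 1) := by
        field_simp
        ring
      have h6 := neg_abs_le ((1 : ℝ) / ((m : ℝ) + 1) - 1 / ((n : ℝ) + 1))
      linarith
  subst hmn
  have h3 : (1 : ℝ) / (((m : ℝ) + 1) * ((m : ℝ) + 2)) ≤ 1 / ((m : ℝ) + 1) := by
    refine one_div_le_one_div_of_le (by positivity) ?_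
    nlinarith [Nat.cast_nonneg (α := ℝ) m]
  have h4 : y = x := net_sep m y hy x hx (lt_of_lt_of_le h1 h3)
  subst h4
  rfl

/-- the approximating points -/
noncomputable def app {N : Type} [MetricSpace N] (n : ℕ) (x : N) : Disc N :=
  ⟨((net_dense n x).choose, 1 / ((n : ℝ) + 1)), n, rfl, (net_dense n x).choose_spec.1⟩

lemma dist_app {N : Type} [MetricSpace N] (n : ℕ) (x : N) :
    dist x (app n x).1.1 < 1 / ((n : ℝ) + 1) := (net_dense n x).choose_spec.2

lemma tendsto_app {N : Type} [MetricSpace N] (x : N) :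
    Tendsto (fun n => (app n x).1) atTop (𝓝 (x, 0)) := by
  refine Tendsto.prodMk_nhds ?_ ?_
  · rw [tendsto_iff_dist_tendsto_zero]
    refine squeeze_zero (fun _ => dist_nonneg) (fun n => ?_) tendsto_one_div_add_atTop_nhds_zero_nat
    rw [dist_comm]
    exact (dist_app n x).le
  · exact tendsto_one_div_add_atTop_nhds_zero_nat

lemma tendsto_dist_app {N : Type} [MetricSpace N] (x y : N) :
    Tendsto (fun n => dist (app n x) (app n y)) atTop (𝓝 (dist x y)) := by
  have h := (tendsto_app x).dist (tendsto_app y)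
  have h2 : dist (x, (0 : ℝ)) (y, (0 : ℝ)) = dist x y := by
    rw [Prod.dist_eq]
    simp
  rw [h2] at h
  exact h

lemma cauchy_app {N : Type} [MetricSpace N] (x : N) :
    CauchySeq (fun n => app n x) := by
  have h : CauchySeq (fun n => (app n x).1) := (tendsto_app x).cauchySeq
  rw [Metric.cauchySeq_iff] at h ⊢
  exact h

section free
variable {p : ℝ} [hp : Fact (0 < p ∧ p ≤ 1)] {N : Type} [MetricSpace N] {o : Disc N}
  {Z : Type} [NormedAddCommGroup Z] [Module ℝ Z] {δ : Disc N → Z}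

lemma norm_sub_eq (h : IsLipschitzFree p (Disc N) o Z δ) (a b : Disc N) :
    ‖δ a - δ b‖ = dist a b ^ p := by
  rw [← h.isometric a b, pnorm_rpow]

lemma exists_lim (h : IsLipschitzFree p (Disc N) o Z δ) (x : N) :
    ∃ z : Z, Tendsto (fun n => δ (app n x)) atTop (𝓝 z) := by
  have := h.banach.2
  refine cauchySeq_tendsto_of_complete ?_
  rw [Metric.cauchySeq_iff]
  intro ε hε
  have h1 := (Metric.cauchySeq_iff.1 (cauchy_app x)) (ε ^ (1 / p)) (Real.rpow_pos_of_pos hε _)
  obtain ⟨n0, hn0⟩ := h1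
  refine ⟨n0, fun m hm n hn => ?_⟩
  rw [dist_eq_norm, norm_sub_eq h]
  have h2 := Real.rpow_lt_rpow dist_nonneg (hn0 m hm n hn) hp.out.1
  rwa [← Real.rpow_mul hε.le, one_div_mul_cancel hp.out.1.ne', Real.rpow_one] at h2

/-- the limit of the evaluations -/
noncomputable def lim (h : IsLipschitzFree p (Disc N) o Z δ) (x : N) : Z := (exists_lim h x).choose

lemma tendsto_lim (h : IsLipschitzFree p (Disc N) o Z δ) (x : N) :
    Tendsto (fun n => δ (app n x)) atTop (𝓝 (lim h x)) := (exists_lim h x).choose_spec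

lemma norm_lim_sub (h : IsLipschitzFree p (Disc N) o Z δ) (x y : N) :
    ‖lim h x - lim h y‖ = dist x y ^ p := by
  have h1 := ((tendsto_lim h x).sub (tendsto_lim h y)).norm
  have h2 : Tendsto (fun n => ‖δ (app n x) - δ (app n y)‖) atTop (𝓝 (dist x y ^ p)) := by
    simp_rw [norm_sub_eq h]
    exact ((Real.continuous_rpow_const hp.out.1.le).tendsto _).comp (tendsto_dist_app x y)
  exact tendsto_nhds_unique h1 h2

/-- **The complementation.** -/
theorem exists_compl (h : IsLipschitzFree p (Disc N) o Z δ) {o' : N} {Z' : Type}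
    [NormedAddCommGroup Z'] [Module ℝ Z'] {δ' : N → Z'} (h' : IsLipschitzFree p N o' Z' δ') :
    ∃ (J : Z' →L[ℝ] Z) (P : Z →L[ℝ] Z'), (∀ z, P (J z) = z) ∧ (∀ z, pnorm p (J z) = pnorm p z) ∧
      ∀ z, pnorm p (P z) ≤ pnorm p z := by
  obtain ⟨J, hJ, hJL, -⟩ := h'.lift Z h.banach (fun x => lim h x - lim h o') (sub_self _)
    ⟨1, fun x y => by
      rw [sub_sub_sub_cancel_right, pnorm_le_iff _ (by positivity), norm_lim_sub, one_mul]⟩
  obtain ⟨P, hP, hPL, -⟩ := h.lift Z' h'.banach (fun a => δ' a.1.1 - δ' o.1.1) (sub_self _)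
    ⟨1, fun x y => by
      rw [sub_sub_sub_cancel_right, h'.isometric, one_mul, dist_disc]
      exact le_max_left _ _⟩
  have hJ1 := (hJL 1 zero_le_one).1 (fun x y => by
      rw [sub_sub_sub_cancel_right, pnorm_le_iff _ (by positivity), norm_lim_sub, one_mul])
  have hP1 := (hPL 1 zero_le_one).1 (fun x y => by
      rw [sub_sub_sub_cancel_right, h'.isometric, one_mul, dist_disc]
      exact le_max_left _ _)
  have hlimP : ∀ x : N, P (lim h x) = δ' x - δ' o.1.1 := by
    intro x
    have h1 := (P.continuous.tendsto _).comp (tendsto_lim h x)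
    have h2 : Tendsto (fun n => P (δ (app n x))) atTop (𝓝 (δ' x - δ' o.1.1)) := by
      simp_rw [hP]
      refine Tendsto.sub_const ?_ _
      rw [tendsto_iff_dist_tendsto_zero]
      have h3 : ∀ n, dist (δ' (app n x).1.1) (δ' x) = dist (app n x).1.1 x ^ p := by
        intro n
        rw [dist_eq_norm, ← h'.isometric, pnorm_rpow]
      simp_rw [h3]
      have h4 : Tendsto (fun n => dist (app n x).1.1 x) atTop (𝓝 0) := by
        rw [← tendsto_iff_dist_tendsto_zero]
        exact (continuous_fst.tendsto _).comp (tendsto_app x)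
      have h5 := ((Real.continuous_rpow_const hp.out.1.le).tendsto 0).comp h4
      rwa [Real.zero_rpow hp.out.1.ne'] at h5
    exact tendsto_nhds_unique h1 h2
  have hPJ : ∀ z, P (J z) = z := by
    have h1 : (P.comp J) = ContinuousLinearMap.id ℝ Z' := by
      refine ContinuousLinearMap.ext_on h'.dense ?_
      rintro _ ⟨x, rfl⟩
      show P (J (δ' x)) = δ' x
      rw [hJ, map_sub, hlimP, hlimP, h'.base]
      abel
    intro z
    exact congrArg (fun T : Z' →L[ℝ] Z' => T z) h1
  refine ⟨J, P, hPJ, fun z => le_antisymm ?_ ?_, fun z => ?_⟩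
  · simpa using hJ1 z
  · have h1 := hP1 (J z)
    rw [hPJ, one_mul] at h1
    exact h1
  · simpa using hP1 z

end free

/-- the approximation property passes to complemented subspaces -/
lemma hasAP_of_compl {p : ℝ} {Z Z' : Type} [NormedAddCommGroup Z] [Module ℝ Z]
    [NormedAddCommGroup Z'] [Module ℝ Z'] (J : Z' →L[ℝ] Z) (P : Z →L[ℝ] Z')
    (hPJ : ∀ z, P (J z) = z) (hP : ∀ z, pnorm p (P z) ≤ pnorm p z) (h : HasAP p Z) :
    HasAP p Z' := by
  intro K hK ε hε
  obtain ⟨T, hT, hTK⟩ := h (J '' K) (hK.image J.continuous) ε hε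
  refine ⟨(P.comp T).comp J, ?_, fun z hz => ?_⟩
  · have := hT
    have h1 : LinearMap.range (((P.comp T).comp J : Z' →L[ℝ] Z') : Z' →ₗ[ℝ] Z') ≤
        (LinearMap.range (T : Z →ₗ[ℝ] Z)).map (P : Z →ₗ[ℝ] Z') := by
      rintro _ ⟨z, rfl⟩
      exact ⟨T (J z), ⟨J z, rfl⟩, rfl⟩
    exact Submodule.finiteDimensional_of_le h1
  · have h2 := hTK (J z) ⟨z, hz, rfl⟩
    have h3 : ((P.comp T).comp J) z - z = P (T (J z) - J z) := by
      rw [map_sub, hPJ]
      rfl
    rw [h3]
    exact lt_of_le_of_lt (hP _) h2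

lemma totallyBounded_disc (N : Type) [MetricSpace N] [CompactSpace N] :
    TotallyBounded (univ : Set (Disc N)) := by
  have h1 : TotallyBounded ((univ : Set N) ×ˢ (Icc (0 : ℝ) 1)) :=
    (isCompact_univ.prod isCompact_Icc).totallyBounded
  have h2 : TotallyBounded
      {q : N × ℝ | ∃ n : ℕ, q.2 = 1 / ((n : ℝ) + 1) ∧ q.1 ∈ net N n} := by
    refine h1.subset ?_
    rintro ⟨x, t⟩ ⟨n, ht, -⟩
    simp only at ht
    subst ht
    refine ⟨trivial, by positivity, ?_⟩
    rw [div_le_one (by positivity)]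
    linarith [Nat.cast_nonneg (α := ℝ) n]
  have h3 := totallyBounded_preimage (f := fun a : Disc N => a.1)
    (IsUniformInducing.mk rfl) h2
  refine h3.subset fun a _ => a.2

lemma countable_disc (N : Type) [MetricSpace N] [CompactSpace N] : Countable (Disc N) := by
  have : TopologicalSpace.SeparableSpace (Disc N) := by
    have h := (totallyBounded_disc N).isSeparable
    exact TopologicalSpace.isSeparable_univ_iff.1 h
  have : DiscreteTopology (Disc N) := by
    refine discreteTopology_iff_isOpen_singleton.2 fun a => ?_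
    obtain ⟨r, hr, h⟩ := disc_isolated a
    refine Metric.isOpen_iff.2 fun b hb => ?_
    rw [mem_singleton_iff.1 hb]
    exact ⟨r, hr, fun c hc => h c hc⟩
  have := UniformSpace.secondCountable_of_separable (Disc N)
  exact (TopologicalSpace.separableSpace_iff_countable (α := Disc N)).1 inferInstance

end Pool.Agent.L5helper82.DiscAP
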