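import Mathlib
import Pool.Agent.R477.HH.Op

/-!
Every separable infinite-dimensional real or complex Banach space carries a hypercyclic operator of
the form `1 + N` (Ansari, Bernal-Gonzalez); derived here from the criterion in `R477.HH`.
-/

set_option autoImplicit false

open Filter Topology

namespace Pool.Agent.L5helper82

open Pool.Agent.R477.HH TopologicalSpace

theorem exists_hc (𝕜 Z : Type) [RCLike 𝕜] [NormedAddCommGroup Z] [NormedSpace 𝕜 Z]
    [CompleteSpace Z] [SeparableSpace Z] (hZ : ¬ FiniteDimensional 𝕜 Z) :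
    ∃ (T : Z →L[𝕜] Z) (z : Z), Dense (Set.range fun n : ℕ => (T ^ n) z) := by
  obtain ⟨e, f, h1, h2, h3⟩ := exists_bio 𝕜 Z hZ
  let w : ℕ → ℝ := fun i => (1 / 2 : ℝ) ^ i / ((‖f (i + 1)‖ + 1) * (‖e i‖ + 1))
  have hw : ∀ i, 0 < w i := fun i => by positivity
  let g : ℕ → (Z →L[𝕜] Z) := fun i => (f (i + 1)).smulRight (((w i : ℝ) : 𝕜) • e i)
  have hg : ∀ i, ‖g i‖ ≤ (1 / 2 : ℝ) ^ i := by
    intro i
    have e1 : ‖g i‖ = ‖f (i + 1)‖ * (w i * ‖e i‖) := by
      simp only [g]
      rw [ContinuousLinearMap.norm_smulRight_apply, norm_smul, RCLike.norm_ofReal,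
        abs_of_pos (hw i)]
    rw [e1]
    have e2 : ‖f (i + 1)‖ * (w i * ‖e i‖) = (1 / 2 : ℝ) ^ i *
        (‖f (i + 1)‖ / (‖f (i + 1)‖ + 1)) * (‖e i‖ / (‖e i‖ + 1)) := by
      simp only [w]
      field_simp
    rw [e2]
    have e3 : ‖f (i + 1)‖ / (‖f (i + 1)‖ + 1) ≤ 1 := by
      rw [div_le_one (by positivity)]; linarith
    have e4 : ‖e i‖ / (‖e i‖ + 1) ≤ 1 := by
      rw [div_le_one (by positivity)]; linarith
    have e5 : 0 ≤ ‖f (i + 1)‖ / (‖f (i + 1)‖ + 1) := by positivity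
    have e6 : 0 ≤ ‖e i‖ / (‖e i‖ + 1) := by positivity
    have e7 : (0 : ℝ) ≤ (1 / 2 : ℝ) ^ i := by positivity
    calc (1 / 2 : ℝ) ^ i * (‖f (i + 1)‖ / (‖f (i + 1)‖ + 1)) * (‖e i‖ / (‖e i‖ + 1))
        ≤ (1 / 2 : ℝ) ^ i * 1 * 1 := by gcongr
      _ = (1 / 2 : ℝ) ^ i := by ring
  have hgs : Summable g := Summable.of_norm_bounded
    (summable_geometric_of_lt_one (by norm_num) (by norm_num : (1 / 2 : ℝ) < 1)) hg
  let N : Z →L[𝕜] Z := ∑' i, g i
  have hN : ∀ x, N x = ∑' i, g i x := fun x => by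
    have := (ContinuousLinearMap.apply 𝕜 Z x).map_tsum hgs
    simpa using this
  have hN0 : N (e 0) = 0 := by
    rw [hN]
    have : ∀ i, g i (e 0) = 0 := fun i => by
      simp only [g, ContinuousLinearMap.smulRight_apply, h2 (i + 1) 0 (Nat.succ_ne_zero i),
        zero_smul]
    simp [this]
  have hN1 : ∀ j, N (e (j + 1)) = ((w j : ℝ) : 𝕜) • e j := by
    intro j
    rw [hN, tsum_eq_single j]
    · simp only [g, ContinuousLinearMap.smulRight_apply, h1, one_smul]
    · intro i hi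
      simp only [g, ContinuousLinearMap.smulRight_apply, h2 (i + 1) (j + 1) (by omega), zero_smul]
  let W : ℕ → ℝ := fun j => ∏ i ∈ Finset.range j, w i
  have hW : ∀ j, 0 < W j := fun j => Finset.prod_pos fun i _ => hw i
  let β : ℕ → Z := fun j => ((W j : ℝ) : 𝕜)⁻¹ • e j
  let T : Z →L[𝕜] Z := 1 + N
  have hT : ∀ x, T x = x + N x := fun x => rfl
  have hβ0 : (T : Z →ₗ[𝕜] Z) (β 0) = β 0 := by
    show T (β 0) = β 0
    rw [hT]
    simp only [β, map_smul, hN0, smul_zero, add_zero]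
  have hβ1 : ∀ j, (T : Z →ₗ[𝕜] Z) (β (j + 1)) = β (j + 1) + β j := by
    intro j
    show T (β (j + 1)) = β (j + 1) + β j
    rw [hT]
    congr 1
    simp only [β, map_smul, hN1, smul_smul]
    congr 1
    have h4 : W (j + 1) = W j * w j := Finset.prod_range_succ _ _
    have h5 : ((W j : ℝ) : 𝕜) ≠ 0 := by exact_mod_cast (hW j).ne'
    have h6 : ((w j : ℝ) : 𝕜) ≠ 0 := by exact_mod_cast (hw j).ne'
    rw [h4]
    push_cast
    field_simp
  obtain ⟨D, hD, hDm⟩ := exists_dense e h3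
  have hspan : ∀ y ∈ Submodule.span 𝕜 (Set.range e), y ∈ Submodule.span 𝕜 (Set.range β) := by
    intro y hy
    refine Submodule.span_le.2 ?_ hy
    rintro _ ⟨j, rfl⟩
    have h5 : ((W j : ℝ) : 𝕜) ≠ 0 := by exact_mod_cast (hW j).ne'
    have : e j = ((W j : ℝ) : 𝕜) • β j := by
      simp only [β, smul_smul, mul_inv_cancel₀ h5, one_smul]
    rw [this]
    exact Submodule.smul_mem _ _ (Submodule.subset_span ⟨j, rfl⟩)
  have hP : ∀ M, ∀ x ∈ Submodule.span 𝕜 (Set.range β), ∀ d,
      (x, D d) ∈ P (T : Z →ₗ[𝕜] Z) LinearMap.id (Submodule.span 𝕜 (Set.range β)) M := by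
    intro M x hx d
    have hx' : (x, (0 : Z)) ∈ P (T : Z →ₗ[𝕜] Z) LinearMap.id
        (Submodule.span 𝕜 (Set.range β)) M := by
      induction hx using Submodule.span_induction with
      | mem x hx =>
        obtain ⟨j, rfl⟩ := hx
        exact chain_source (T : Z →ₗ[𝕜] Z) β hβ0 hβ1 LinearMap.id
          (Submodule.span 𝕜 (Set.range β)) β 0 (fun j _ => rfl)
          (fun j _ => Submodule.subset_span ⟨j, rfl⟩) M j (Nat.zero_le _)
      | zero => exact Submodule.zero_mem _
      | add x x' _ _ h h' =>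
        have := Submodule.add_mem _ h h'
        rwa [Prod.mk_add_mk, add_zero] at this
      | smul a x _ h =>
        have := Submodule.smul_mem _ a h
        rwa [Prod.smul_mk, smul_zero] at this
    have hy' : ∀ y ∈ Submodule.span 𝕜 (Set.range β), ((0 : Z), y) ∈ P (T : Z →ₗ[𝕜] Z)
        LinearMap.id (Submodule.span 𝕜 (Set.range β)) M := by
      intro y hy
      induction hy using Submodule.span_induction with
      | mem y hy =>
        obtain ⟨j, rfl⟩ := hy
        exact chain_target (T : Z →ₗ[𝕜] Z) β hβ0 hβ1 LinearMap.id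
          (Submodule.span 𝕜 (Set.range β)) β 0 (fun j _ => rfl)
          (fun j _ => Submodule.subset_span ⟨j, rfl⟩) M j
      | zero => exact Submodule.zero_mem _
      | add x x' _ _ h h' =>
        have := Submodule.add_mem _ h h'
        rwa [Prod.mk_add_mk, add_zero] at this
      | smul a x _ h =>
        have := Submodule.smul_mem _ a h
        rwa [Prod.smul_mk, smul_zero] at this
    have := Submodule.add_mem _ hx' (hy' (D d) (hspan _ (hDm d)))
    rwa [Prod.mk_add_mk, add_zero, zero_add] at this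
  obtain ⟨z, hz⟩ := criterion (T : Z →ₗ[𝕜] Z) T.continuous LinearMap.id continuous_id
    (Submodule.span 𝕜 (Set.range β)) D hD hP Set.univ Set.infinite_univ
  refine ⟨T, z, ?_⟩
  rw [Set.image_univ] at hz
  have e8 : (fun n : ℕ => ((T : Z →ₗ[𝕜] Z) ^ n) z) = fun n : ℕ => (T ^ n) z := by
    funext n
    induction n with
    | zero => simp
    | succ n ih =>
      rw [pow_succ', pow_succ', Module.End.mul_apply, ih]
      rfl
  rwa [e8] at hz

end Pool.Agent.L5helper82
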