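import Pool.Agent.L5helper13.TQ.Defs

/-!
# TQ3: coefficients of a torus action are combinations of characters
-/

set_option autoImplicit false

namespace Pool.Agent.L5helper13.TQ

open MvPolynomial

theorem AA_mul_char (k : Type) [Field k] (d : ℕ) (χ : (Fin d → kˣ) →* k)
    (f : (Fin d → kˣ) → k) (hf : f ∈ AA k d) : (fun t => f t * χ t) ∈ AA k d := by
  unfold AA at hf
  induction hf using Submodule.span_induction with
  | mem x hx =>
    obtain ⟨χ', rfl⟩ := hx
    exact Submodule.subset_span ⟨χ' * χ, rfl⟩
  | zero =>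
    have : (fun t : Fin d → kˣ => (0 : (Fin d → kˣ) → k) t * χ t) = 0 := by
      funext t; simp
    rw [this]
    exact Submodule.zero_mem _
  | add x y _ _ hx hy =>
    have : (fun t : Fin d → kˣ => (x + y) t * χ t) = (fun t => x t * χ t) + fun t => y t * χ t := by
      funext t; simp [add_mul]
    rw [this]
    exact Submodule.add_mem _ hx hy
  | smul a x _ hx =>
    have : (fun t : Fin d → kˣ => (a • x) t * χ t) = a • fun t => x t * χ t := by
      funext t; simp [mul_assoc]
    rw [this]
    exact Submodule.smul_mem _ _ hx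

theorem AA_const (k : Type) [Field k] (d : ℕ) (c : k) : (fun _ => c) ∈ AA k d := by
  have : (fun _ : Fin d → kˣ => c) = c • (fun t => (1 : (Fin d → kˣ) →* k) t) := by
    funext t; simp
  rw [this]
  exact Submodule.smul_mem _ _ (Submodule.subset_span ⟨1, rfl⟩)

theorem aeval_AA (k : Type) [Field k] (n d : ℕ) (F : MvPolynomial (Fin d ⊕ Fin n) k) :
    ∀ e : Fin n →₀ ℕ, (fun t : Fin d → kˣ => coeff e
      (aeval (Sum.elim (fun i : Fin d => (C ((t i : kˣ) : k) : MvPolynomial (Fin n) k))
        (fun l : Fin n => (X l : MvPolynomial (Fin n) k))) F)) ∈ AA k d := by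
  classical
  induction F using MvPolynomial.induction_on with
  | C c =>
    intro e
    have : (fun t : Fin d → kˣ => coeff e
      (aeval (Sum.elim (fun i : Fin d => (C ((t i : kˣ) : k) : MvPolynomial (Fin n) k))
        (fun l : Fin n => (X l : MvPolynomial (Fin n) k))) (C c : MvPolynomial (Fin d ⊕ Fin n) k))) =
        fun _ => if 0 = e then c else 0 := by
      funext t
      rw [aeval_C, MvPolynomial.algebraMap_eq, coeff_C]
    rw [this]
    exact AA_const k d _
  | add p q hp hq =>
    intro e
    have := Submodule.add_mem _ (hp e) (hq e)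
    simp only [map_add, coeff_add]
    exact this
  | mul_X p v hp =>
    intro e
    rcases v with i | l
    · have h1 := AA_mul_char k d ((Units.coeHom k).comp (Pi.evalMonoidHom (fun _ : Fin d => kˣ) i))
        _ (hp e)
      have h2 : (fun t : Fin d → kˣ => coeff e
          (aeval (Sum.elim (fun i : Fin d => (C ((t i : kˣ) : k) : MvPolynomial (Fin n) k))
            (fun l : Fin n => (X l : MvPolynomial (Fin n) k))) (p * X (Sum.inl i)))) =
          fun t => coeff e
          (aeval (Sum.elim (fun i : Fin d => (C ((t i : kˣ) : k) : MvPolynomial (Fin n) k))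
            (fun l : Fin n => (X l : MvPolynomial (Fin n) k))) p) *
          ((Units.coeHom k).comp (Pi.evalMonoidHom (fun _ : Fin d => kˣ) i)) t := by
        funext t
        rw [map_mul, aeval_X, Sum.elim_inl, mul_comm, coeff_C_mul, mul_comm]
        rfl
      rw [h2]
      exact h1
    · by_cases hl : l ∈ e.support
      · have h2 : (fun t : Fin d → kˣ => coeff e
            (aeval (Sum.elim (fun i : Fin d => (C ((t i : kˣ) : k) : MvPolynomial (Fin n) k))
              (fun l : Fin n => (X l : MvPolynomial (Fin n) k))) (p * X (Sum.inr l)))) =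
            fun t => coeff (e - Finsupp.single l 1)
            (aeval (Sum.elim (fun i : Fin d => (C ((t i : kˣ) : k) : MvPolynomial (Fin n) k))
              (fun l : Fin n => (X l : MvPolynomial (Fin n) k))) p) := by
          funext t
          rw [map_mul, aeval_X, Sum.elim_inr, coeff_mul_X', if_pos hl]
        rw [h2]
        exact hp _
      · have h2 : (fun t : Fin d → kˣ => coeff e
            (aeval (Sum.elim (fun i : Fin d => (C ((t i : kˣ) : k) : MvPolynomial (Fin n) k))
              (fun l : Fin n => (X l : MvPolynomial (Fin n) k))) (p * X (Sum.inr l)))) =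
            fun t => 0 := by
          funext t
          rw [map_mul, aeval_X, Sum.elim_inr, coeff_mul_X', if_neg hl]
        rw [h2]
        exact AA_const k d 0

/-- TQ3 -/
theorem coeff_AA (k : Type) [Field k] (n d : ℕ)
    (ρ : (Fin d → kˣ) → MvPolynomial (Fin n) k) (m : ℕ) (F : MvPolynomial (Fin d ⊕ Fin n) k)
    (h : ∀ t : Fin d → kˣ, C ((∏ i, ((t i : kˣ) : k)) ^ m) * ρ t =
      aeval (Sum.elim (fun i : Fin d => (C ((t i : kˣ) : k) : MvPolynomial (Fin n) k))
        (fun l : Fin n => (X l : MvPolynomial (Fin n) k))) F) (e : Fin n →₀ ℕ) :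
    (fun t => coeff e (ρ t)) ∈ AA k d := by
  have h1 := AA_mul_char k d ((Units.coeHom k).comp
    (((∏ i, Pi.evalMonoidHom (fun _ : Fin d => kˣ) i) ^ m)⁻¹)) _ (aeval_AA k n d F e)
  have h2 : (fun t => coeff e (ρ t)) = fun t : Fin d → kˣ => coeff e
      (aeval (Sum.elim (fun i : Fin d => (C ((t i : kˣ) : k) : MvPolynomial (Fin n) k))
        (fun l : Fin n => (X l : MvPolynomial (Fin n) k))) F) * ((Units.coeHom k).comp
    (((∏ i, Pi.evalMonoidHom (fun _ : Fin d => kˣ) i) ^ m)⁻¹)) t := by
    funext t
    rw [← h t, coeff_C_mul]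
    have h3 : ((Units.coeHom k).comp
        (((∏ i, Pi.evalMonoidHom (fun _ : Fin d => kˣ) i) ^ m)⁻¹)) t =
        ((∏ i, ((t i : kˣ) : k)) ^ m)⁻¹ := by
      rw [MonoidHom.comp_apply, MonoidHom.inv_apply, MonoidHom.pow_apply,
        MonoidHom.finsetProd_apply]
      simp
    rw [h3]
    have h4 : (∏ i, ((t i : kˣ) : k)) ^ m ≠ 0 :=
      pow_ne_zero _ (Finset.prod_ne_zero_iff.2 fun i _ => (t i).ne_zero)
    field_simp
  rw [h2]
  exact h1

end Pool.Agent.L5helper13.TQ
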